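import Pool.Agent.Helper96.NSF.Fresh

/-!
# NSF, packet CBI: the central binomial coefficient is small against `2 ^ n`
-/

namespace Pool.Agent.Helper27.NSF

theorem cb_bound (k : ℕ) : (2 * k + 1) * k.centralBinom ^ 2 ≤ 16 ^ k := by
  induction k with
  | zero => simp
  | succ k ih =>
    have h := Nat.succ_mul_centralBinom_succ k
    have h2 : (k + 1) ^ 2 * ((2 * (k + 1) + 1) * (k + 1).centralBinom ^ 2) ≤
        (k + 1) ^ 2 * 16 ^ (k + 1) := by
      calc (k + 1) ^ 2 * ((2 * (k + 1) + 1) * (k + 1).centralBinom ^ 2)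
          = (2 * k + 3) * ((k + 1) * (k + 1).centralBinom) ^ 2 := by ring
        _ = (2 * k + 3) * (2 * (2 * k + 1) * k.centralBinom) ^ 2 := by rw [h]
        _ = 4 * ((2 * k + 3) * (2 * k + 1)) * ((2 * k + 1) * k.centralBinom ^ 2) := by ring
        _ ≤ 4 * ((2 * k + 3) * (2 * k + 1)) * 16 ^ k := Nat.mul_le_mul_left _ ih
        _ ≤ 4 * (4 * (k + 1) ^ 2) * 16 ^ k := by
            refine Nat.mul_le_mul_right _ (Nat.mul_le_mul_left _ ?_)
            nlinarith
        _ = (k + 1) ^ 2 * 16 ^ (k + 1) := by ring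
    exact Nat.le_of_mul_le_mul_left h2 (by positivity)

theorem CBI : Pool.Agent.Helper96.NSF.CBI_stmt := by
  intro δ hδ
  obtain ⟨k, hk⟩ := exists_nat_gt (1 / δ ^ 2)
  have hk1 : 1 ≤ k := by
    rcases Nat.eq_zero_or_pos k with h | h
    · rw [h, Nat.cast_zero] at hk
      have : 0 < 1 / δ ^ 2 := by positivity
      linarith
    · exact h
  refine ⟨2 * k, by omega, ?_⟩
  rw [Nat.mul_div_cancel_left k (by norm_num)]
  have hb : ((2 * k + 1 : ℕ) : ℝ) * ((2 * k).choose k : ℝ) ^ 2 ≤ 16 ^ k := by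
    have := cb_bound k
    rw [Nat.centralBinom] at this
    exact_mod_cast this
  have h1 : 1 < δ ^ 2 * k := by
    rw [div_lt_iff₀ (by positivity)] at hk
    linarith
  have h2 : ((2 * k).choose k : ℝ) ^ 2 ≤ (δ * 2 ^ (2 * k)) ^ 2 := by
    have e : (δ * 2 ^ (2 * k)) ^ 2 = δ ^ 2 * 16 ^ k := by
      rw [mul_pow, ← pow_mul, show 2 * k * 2 = 4 * k by ring, pow_mul]
      norm_num
    rw [e]
    have h3 : (0 : ℝ) < 2 * k + 1 := by positivity
    push_cast at hb
    have h4 : ((2 * k).choose k : ℝ) ^ 2 * 1 ≤ ((2 * k).choose k : ℝ) ^ 2 * (δ ^ 2 * (2 * k + 1)) := by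
      refine mul_le_mul_of_nonneg_left ?_ (by positivity)
      have : 0 < δ ^ 2 := by positivity
      nlinarith
    have h5 : δ ^ 2 * ((2 * k + 1) * ((2 * k).choose k : ℝ) ^ 2) ≤ δ ^ 2 * 16 ^ k :=
      mul_le_mul_of_nonneg_left hb (by positivity)
    nlinarith
  exact (sq_le_sq₀ (by positivity) (by positivity)).mp h2

end Pool.Agent.Helper27.NSF
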